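import Pool.Agent.H47.VT.Targets6

/-!
# Theorem (V), section 6: exchange of sums (row AS of the board `vdeg_modules`)
-/

set_option autoImplicit false

namespace Pool.Agent.H1.VT

open Pool.Agent.H47.VT

/-- a product of primes over the product of the predecessors -/
lemma prod_le_card (s : Finset ℕ) : (∀ p ∈ s, 2 ≤ p) →
    ∏ p ∈ s, ((p : ℝ) / (p - 1)) ≤ s.card + 1 := by
  induction s using Finset.induction_on_max with
  | empty => intro _; simp
  | insert a s hmax ih =>
    intro h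
    have ha : a ∉ s := fun hh => lt_irrefl _ (hmax a hh)
    have h2 : ∀ p ∈ s, 2 ≤ p := fun p hp => h p (Finset.mem_insert_of_mem hp)
    have hih := ih h2
    have ha2 : 2 ≤ a := h a (Finset.mem_insert_self _ _)
    -- `s` is contained in `[2, a)`
    have hcard : s.card + 2 ≤ a := by
      have hsub : s ⊆ Finset.Ico 2 a := by
        intro p hp
        rw [Finset.mem_Ico]
        exact ⟨h2 p hp, hmax p hp⟩
      have := Finset.card_le_card hsub
      rw [Nat.card_Ico] at this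
      omega
    rw [Finset.prod_insert ha, Finset.card_insert_of_notMem ha]
    have hc' : (s.card : ℝ) + 2 ≤ a := by exact_mod_cast hcard
    have hs0 : (0 : ℝ) ≤ s.card := Nat.cast_nonneg _
    have ha1 : (0 : ℝ) < (a : ℝ) - 1 := by linarith
    have hnn : (0 : ℝ) ≤ (a : ℝ) / (a - 1) := by positivity
    calc (a : ℝ) / (a - 1) * ∏ p ∈ s, ((p : ℝ) / (p - 1)) ≤
        (a : ℝ) / (a - 1) * (s.card + 1) := mul_le_mul_of_nonneg_left hih hnn
      _ ≤ ((s.card + 1 : ℕ) : ℝ) + 1 := by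
        rw [div_mul_eq_mul_div, div_le_iff₀ ha1]
        push_cast
        nlinarith

/-- `n / φ(n) ≤ 1 + log n / log 2` -/
lemma totient_bound (n : ℕ) (hn : 1 ≤ n) :
    1 / (n.totient : ℝ) ≤ (1 + 2 * Real.log n) / n := by
  have hn0 : (0 : ℝ) < n := by exact_mod_cast hn
  have hφ : (0 : ℝ) < n.totient := by exact_mod_cast Nat.totient_pos.mpr (by omega)
  have h1 := Nat.totient_eq_mul_prod_factors n
  have hq : (n.totient : ℝ) = n * ∏ p ∈ n.primeFactors, (1 - (p : ℝ)⁻¹) := by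
    have := congrArg (fun x : ℚ => (x : ℝ)) h1
    push_cast at this
    exact this
  have hprod : (∏ p ∈ n.primeFactors, ((p : ℝ) / (p - 1))) *
      ∏ p ∈ n.primeFactors, (1 - (p : ℝ)⁻¹) = 1 := by
    rw [← Finset.prod_mul_distrib]
    refine Finset.prod_eq_one fun p hp => ?_
    have hp2 := (Nat.prime_of_mem_primeFactors hp).two_le
    have hpr : (2 : ℝ) ≤ p := by exact_mod_cast hp2
    have h1 : (p : ℝ) - 1 ≠ 0 := by linarith
    have h2 : (p : ℝ) ≠ 0 := by linarith
    field_simp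
  have hle := prod_le_card n.primeFactors
    (fun p hp => (Nat.prime_of_mem_primeFactors hp).two_le)
  have hcard : (n.primeFactors.card : ℝ) ≤ 2 * Real.log n := by
    have h2 : 2 ^ n.primeFactors.card ≤ n := by
      calc 2 ^ n.primeFactors.card = ∏ _p ∈ n.primeFactors, 2 := by
            rw [Finset.prod_const]
        _ ≤ ∏ p ∈ n.primeFactors, p :=
            Finset.prod_le_prod' fun p hp => (Nat.prime_of_mem_primeFactors hp).two_le
        _ ≤ n := Nat.le_of_dvd (by omega) (Nat.prod_primeFactors_dvd n)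
    have h3 : (2 : ℝ) ^ n.primeFactors.card ≤ n := by exact_mod_cast h2
    have h4 := Real.log_le_log (by positivity) h3
    rw [Real.log_pow] at h4
    have h5 : (0.5 : ℝ) < Real.log 2 := by
      have := Real.log_two_gt_d9
      linarith
    have h6 : (0 : ℝ) ≤ n.primeFactors.card := Nat.cast_nonneg _
    nlinarith
  rw [div_le_div_iff₀ hφ hn0, hq]
  have hP : 0 ≤ ∏ p ∈ n.primeFactors, (1 - (p : ℝ)⁻¹) := by
    refine Finset.prod_nonneg fun p hp => ?_
    have hp2 := (Nat.prime_of_mem_primeFactors hp).two_le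
    have hpr : (2 : ℝ) ≤ p := by exact_mod_cast hp2
    have : (p : ℝ)⁻¹ ≤ 1 := inv_le_one_of_one_le₀ (by linarith)
    linarith
  have h7 : (1 : ℝ) ≤ (1 + 2 * Real.log n) * ∏ p ∈ n.primeFactors, (1 - (p : ℝ)⁻¹) := by
    calc (1 : ℝ) = (∏ p ∈ n.primeFactors, ((p : ℝ) / (p - 1))) *
        ∏ p ∈ n.primeFactors, (1 - (p : ℝ)⁻¹) := hprod.symm
      _ ≤ _ := mul_le_mul_of_nonneg_right (by linarith) hP
  nlinarith

lemma tk_nonneg (k n : ℕ) : 0 ≤ tk k n := by
  unfold tk
  exact Nat.cast_nonneg _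

/-- the sum over the moduli -/
lemma inner (hDVA : T_DVA) (hDVS : T_DVS) (j : ℕ) (hj : 1 ≤ j) (Q g e c : ℕ) (hQ : 1 ≤ Q)
    (hg : 1 ≤ g) (he : 1 ≤ e) (hc : 1 ≤ c) :
    ∑ q ∈ (Finset.Icc Q (3 * Q)).filter (fun q => g ∣ q ∧ e ∣ q / g ∧ c ∣ q / g), tk j q ≤
      tk j g * tk j e * tk j c * (3 * Q / (g * c) * (1 + Real.log (3 * Q)) ^ j) := by
  obtain ⟨h1, h2, h3, h4, h5, h6, h7⟩ := hDVA
  set l := Nat.lcm e c with hl
  have hl0 : 0 < l := Nat.lcm_pos he hc
  have hcl : c ≤ l := Nat.le_of_dvd hl0 (Nat.dvd_lcm_right e c)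
  have hgl : 0 < g * l := Nat.mul_pos hg hl0
  set Z := 3 * Q / (g * l) with hZ
  have hsub : (Finset.Icc Q (3 * Q)).filter (fun q => g ∣ q ∧ e ∣ q / g ∧ c ∣ q / g) ⊆
      (Finset.Icc 1 Z).image (fun r => g * l * r) := by
    intro q hq
    rw [Finset.mem_filter, Finset.mem_Icc] at hq
    obtain ⟨⟨hq1, hq2⟩, hgq, heq, hcq⟩ := hq
    have hlq : l ∣ q / g := Nat.lcm_dvd heq hcq
    have hglq : g * l ∣ q := by
      obtain ⟨t, ht⟩ := hlq
      refine ⟨t, ?_⟩
      have := Nat.mul_div_cancel' hgq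
      rw [← this, ht, mul_assoc]
    obtain ⟨r, hr⟩ := hglq
    rw [Finset.mem_image]
    refine ⟨r, ?_, hr.symm⟩
    rw [Finset.mem_Icc]
    constructor
    · rcases Nat.eq_zero_or_pos r with h | h
      · subst h
        omega
      · exact h
    · rw [hZ, Nat.le_div_iff_mul_le hgl, mul_comm, ← hr]
      exact hq2
  have hstep1 : ∑ q ∈ (Finset.Icc Q (3 * Q)).filter (fun q => g ∣ q ∧ e ∣ q / g ∧ c ∣ q / g),
      tk j q ≤ ∑ r ∈ Finset.Icc 1 Z, tk j (g * l * r) := by
    refine (Finset.sum_le_sum_of_subset_of_nonneg hsub fun i _ _ => tk_nonneg j i).trans ?_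
    rw [Finset.sum_image]
    intro a _ b _ hab
    exact Nat.eq_of_mul_eq_mul_left hgl hab
  have hstep2 : ∑ r ∈ Finset.Icc 1 Z, tk j (g * l * r) ≤
      tk j g * tk j e * tk j c * ∑ r ∈ Finset.Icc 1 Z, tk j r := by
    rw [Finset.mul_sum]
    refine Finset.sum_le_sum fun r _ => ?_
    have hle1 : tk j (g * l * r) ≤ tk j (g * l) * tk j r := h3 j _ _ hj
    have hle2 : tk j (g * l) ≤ tk j g * tk j l := h3 j _ _ hj
    have hle3 : tk j l ≤ tk j (e * c) := by
      refine h4 j _ _ hj (by positivity) ?_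
      exact Nat.lcm_dvd (Dvd.intro _ rfl) (Dvd.intro_left _ rfl)
    have hle4 : tk j (e * c) ≤ tk j e * tk j c := h3 j _ _ hj
    have hA : tk j (g * l) ≤ tk j g * tk j e * tk j c := by
      calc tk j (g * l) ≤ tk j g * tk j l := hle2
        _ ≤ tk j g * (tk j e * tk j c) :=
            mul_le_mul_of_nonneg_left (hle3.trans hle4) (tk_nonneg _ _)
        _ = _ := by ring
    exact hle1.trans (mul_le_mul_of_nonneg_right hA (tk_nonneg _ _))
  have hlog3Q : 0 ≤ Real.log (3 * (Q : ℝ)) := by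
    apply Real.log_nonneg
    have : (1 : ℝ) ≤ Q := by exact_mod_cast hQ
    linarith
  have hstep3 : ∑ r ∈ Finset.Icc 1 Z, tk j r ≤
      3 * Q / (g * c) * (1 + Real.log (3 * Q)) ^ j := by
    rcases Nat.eq_zero_or_pos Z with hZ0 | hZ0
    · rw [hZ0]
      simp only [Finset.Icc_eq_empty_of_lt (show (0 : ℕ) < 1 by norm_num), Finset.sum_empty]
      positivity
    · refine ((hDVS j Z hZ0).2).trans ?_
      have hgc : (0 : ℝ) < (g : ℝ) * c := by positivity
      have hZle : (Z : ℝ) ≤ 3 * Q / (g * c) := by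
        rw [le_div_iff₀ hgc]
        have hh : Z * (g * c) ≤ 3 * Q := by
          calc Z * (g * c) ≤ Z * (g * l) :=
                Nat.mul_le_mul_left _ (Nat.mul_le_mul_left _ hcl)
            _ ≤ 3 * Q := Nat.div_mul_le_self _ _
        exact_mod_cast hh
      have hZ3 : (Z : ℝ) ≤ 3 * Q := by
        have hh : Z ≤ 3 * Q := Nat.div_le_self _ _
        exact_mod_cast hh
      have hZ1 : (1 : ℝ) ≤ Z := by exact_mod_cast hZ0
      have hlogZ : Real.log Z ≤ Real.log (3 * Q) := Real.log_le_log (by linarith) hZ3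
      have hlogZ0 : 0 ≤ Real.log Z := Real.log_nonneg hZ1
      exact mul_le_mul hZle (pow_le_pow_left₀ (by linarith) (by linarith) _)
        (by positivity) (by positivity)
  refine hstep1.trans (hstep2.trans (mul_le_mul_of_nonneg_left hstep3 ?_))
  have := tk_nonneg j g
  have := tk_nonneg j e
  have := tk_nonneg j c
  positivity

theorem pf_AS (hDVA : T_DVA) (hDVS : T_DVS) : T_AS := by
  intro j hj
  refine ⟨j + 1, 15 * 4 ^ j, by positivity, ?_⟩
  intro Q x hQ hx
  have hQr : (1 : ℝ) ≤ Q := by exact_mod_cast hQ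
  have hQ0 : (0 : ℝ) < Q := by linarith
  have hlogQ : 0 ≤ Real.log Q := Real.log_nonneg hQr
  have hlog3 : Real.log (3 * (Q : ℝ)) ≤ 2 + Real.log Q := by
    rw [Real.log_mul (by norm_num) (by linarith)]
    have : Real.log 3 ≤ 3 - 1 := Real.log_le_sub_one_of_pos (by norm_num)
    linarith
  have hlog3Q : 0 ≤ Real.log (3 * (Q : ℝ)) := Real.log_nonneg (by linarith)
  set K : ℝ := 1 + 2 * Real.log (3 * Q) with hK
  have hK0 : 0 ≤ K := by rw [hK]; positivity
  have hK5 : K ≤ 5 * (1 + Real.log Q) := by rw [hK]; linarith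
  set I := Finset.Icc 1 (3 * Q) with hI
  -- one modulus
  have hone : ∀ q ∈ Finset.Icc Q (3 * Q),
      tk j q / q * ∑ g ∈ q.divisors, 1 / ((q / g).totient : ℝ) *
        ∑ e ∈ (q / g).divisors, ∑ c ∈ (q / g).divisors, Real.sqrt c * x c (g * e) ≤
      ∑ g ∈ I, ∑ e ∈ I, ∑ c ∈ I, K / Q ^ 2 * (g * Real.sqrt c * x c (g * e)) *
        (if g ∣ q ∧ e ∣ q / g ∧ c ∣ q / g then tk j q else 0) := by
    intro q hq
    rw [Finset.mem_Icc] at hq
    obtain ⟨hq1, hq2⟩ := hq
    have hqpos : 0 < q := by omega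
    have hqr : (Q : ℝ) ≤ q := by exact_mod_cast hq1
    have hq0 : (0 : ℝ) < q := by linarith
    have hq3 : (q : ℝ) ≤ 3 * Q := by exact_mod_cast hq2
    have hterm0 : ∀ g e c : ℕ, 0 ≤ K / Q ^ 2 * (g * Real.sqrt c * x c (g * e)) *
        (if g ∣ q ∧ e ∣ q / g ∧ c ∣ q / g then tk j q else 0) := by
      intro g e c
      have := hx c (g * e)
      have := tk_nonneg j q
      split_ifs <;> positivity
    -- divisors are in `I`
    have hdiv : ∀ d, d ∣ q → d.divisors ⊆ I := by
      intro d hd a ha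
      rw [Nat.mem_divisors] at ha
      rw [hI, Finset.mem_Icc]
      have h1 : a ∣ q := ha.1.trans hd
      exact ⟨Nat.pos_of_dvd_of_pos h1 hqpos, (Nat.le_of_dvd hqpos h1).trans hq2⟩
    rw [Finset.mul_sum]
    refine le_trans ?_ (Finset.sum_le_sum_of_subset_of_nonneg (hdiv q dvd_rfl) fun g _ _ =>
      Finset.sum_nonneg fun e _ => Finset.sum_nonneg fun c _ => hterm0 g e c)
    refine Finset.sum_le_sum fun g hg => ?_
    rw [Nat.mem_divisors] at hg
    have hgq := hg.1
    have hgpos : 0 < g := Nat.pos_of_dvd_of_pos hgq hqpos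
    have hg0 : (0 : ℝ) < g := by exact_mod_cast hgpos
    have hqg : q / g ∣ q := Nat.div_dvd_of_dvd hgq
    have hqgpos : 0 < q / g := Nat.pos_of_dvd_of_pos hqg hqpos
    rw [Finset.mul_sum, Finset.mul_sum]
    refine le_trans ?_ (Finset.sum_le_sum_of_subset_of_nonneg (hdiv _ hqg) fun e _ _ =>
      Finset.sum_nonneg fun c _ => hterm0 g e c)
    refine Finset.sum_le_sum fun e he => ?_
    rw [Finset.mul_sum, Finset.mul_sum]
    refine le_trans ?_ (Finset.sum_le_sum_of_subset_of_nonneg (hdiv _ hqg) fun c _ _ =>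
      hterm0 g e c)
    refine Finset.sum_le_sum fun c hc => ?_
    rw [Nat.mem_divisors] at he hc
    rw [if_pos ⟨hgq, he.1, hc.1⟩]
    -- `1 / φ(q / g) ≤ K g / Q`
    have htot := totient_bound (q / g) hqgpos
    have hcast : ((q / g : ℕ) : ℝ) = (q : ℝ) / g := Nat.cast_div hgq (by positivity)
    have hqgr : (0 : ℝ) < (q : ℝ) / g := by positivity
    have htot2 : 1 / ((q / g).totient : ℝ) ≤ K * g / q := by
      refine htot.trans ?_
      rw [hcast, div_le_div_iff₀ hqgr hq0]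
      have hlogle : Real.log ((q : ℝ) / g) ≤ Real.log (3 * Q) := by
        apply Real.log_le_log hqgr
        refine le_trans ?_ hq3
        rw [div_le_iff₀ hg0]
        have : (1 : ℝ) ≤ g := by exact_mod_cast hgpos
        nlinarith
      have : K * g * ((q : ℝ) / g) = K * q := by field_simp
      rw [this]
      have h1 : 1 + 2 * Real.log ((q : ℝ) / g) ≤ K := by rw [hK]; linarith
      exact mul_le_mul_of_nonneg_right h1 hq0.le
    have hX : 0 ≤ Real.sqrt c * x c (g * e) := mul_nonneg (Real.sqrt_nonneg _) (hx _ _)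
    have ht := tk_nonneg j q
    have hKg : 0 ≤ K * g := by positivity
    calc tk j q / q * (1 / ((q / g).totient : ℝ) * (Real.sqrt c * x c (g * e)))
        ≤ tk j q / q * (K * g / q * (Real.sqrt c * x c (g * e))) :=
          mul_le_mul_of_nonneg_left (mul_le_mul_of_nonneg_right htot2 hX) (by positivity)
      _ = (K * g * (Real.sqrt c * x c (g * e)) * tk j q) / (q * q) := by
          field_simp
      _ ≤ (K * g * (Real.sqrt c * x c (g * e)) * tk j q) / (Q * Q) := by
          apply div_le_div_of_nonneg_left (by positivity) (by positivity)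
          exact mul_le_mul hqr hqr hQ0.le hq0.le
      _ = _ := by ring
  refine (Finset.sum_le_sum hone).trans ?_
  -- interchange
  have hswap : ∑ q ∈ Finset.Icc Q (3 * Q), ∑ g ∈ I, ∑ e ∈ I, ∑ c ∈ I,
      K / Q ^ 2 * (g * Real.sqrt c * x c (g * e)) *
        (if g ∣ q ∧ e ∣ q / g ∧ c ∣ q / g then tk j q else 0) =
      ∑ g ∈ I, ∑ e ∈ I, ∑ c ∈ I, K / Q ^ 2 * (g * Real.sqrt c * x c (g * e)) *
        ∑ q ∈ (Finset.Icc Q (3 * Q)).filter (fun q => g ∣ q ∧ e ∣ q / g ∧ c ∣ q / g),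
          tk j q := by
    rw [Finset.sum_comm]
    refine Finset.sum_congr rfl fun g _ => ?_
    rw [Finset.sum_comm]
    refine Finset.sum_congr rfl fun e _ => ?_
    rw [Finset.sum_comm]
    refine Finset.sum_congr rfl fun c _ => ?_
    rw [Finset.mul_sum, Finset.sum_filter]
    refine Finset.sum_congr rfl fun q _ => ?_
    split_ifs <;> simp
  rw [hswap, Finset.mul_sum]
  refine Finset.sum_le_sum fun g hg => ?_
  rw [Finset.mul_sum]
  refine Finset.sum_le_sum fun e he => ?_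
  rw [Finset.mul_sum, Finset.mul_sum]
  refine Finset.sum_le_sum fun c hc => ?_
  rw [hI, Finset.mem_Icc] at hg he hc
  have hg0 : (0 : ℝ) < g := by exact_mod_cast hg.1
  have hc0 : (0 : ℝ) < c := by exact_mod_cast hc.1
  have hsc : 0 < Real.sqrt c := Real.sqrt_pos.mpr hc0
  have hcc : (c : ℝ) = Real.sqrt c * Real.sqrt c := (Real.mul_self_sqrt hc0.le).symm
  have hin := inner hDVA hDVS j hj Q g e c hQ hg.1 he.1 hc.1
  have hX := hx c (g * e)
  have htg := tk_nonneg j g
  have hte := tk_nonneg j e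
  have htc := tk_nonneg j c
  have hpre : 0 ≤ K / Q ^ 2 * (g * Real.sqrt c * x c (g * e)) := by positivity
  refine (mul_le_mul_of_nonneg_left hin hpre).trans ?_
  have hL : K * (1 + Real.log (3 * Q)) ^ j ≤ 5 * 4 ^ j * (1 + Real.log Q) ^ (j + 1) := by
    have h1 : (1 + Real.log (3 * (Q : ℝ))) ^ j ≤ (4 * (1 + Real.log Q)) ^ j :=
      pow_le_pow_left₀ (by linarith) (by linarith) _
    calc K * (1 + Real.log (3 * Q)) ^ j ≤ (5 * (1 + Real.log Q)) * (4 * (1 + Real.log Q)) ^ j :=
          mul_le_mul hK5 h1 (by positivity) (by positivity)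
      _ = _ := by rw [mul_pow]; ring
  have hmain : K / Q ^ 2 * (g * Real.sqrt c * x c (g * e)) *
      (tk j g * tk j e * tk j c * (3 * Q / (g * c) * (1 + Real.log (3 * Q)) ^ j)) =
      3 * (K * (1 + Real.log (3 * Q)) ^ j) / Q *
        (tk j g * tk j e * (tk j c / Real.sqrt c * x c (g * e))) := by
    rw [show (3 * (Q : ℝ) / (g * c)) = 3 * Q / (g * (Real.sqrt c * Real.sqrt c)) by rw [← hcc]]
    field_simp
  rw [hmain]
  have hfin : 3 * (K * (1 + Real.log (3 * Q)) ^ j) / Q ≤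
      3 * (5 * 4 ^ j * (1 + Real.log Q) ^ (j + 1)) / Q := by
    apply div_le_div_of_nonneg_right _ hQ0.le
    linarith
  have hR : 0 ≤ tk j g * tk j e * (tk j c / Real.sqrt c * x c (g * e)) := by positivity
  refine (mul_le_mul_of_nonneg_right hfin hR).trans ?_
  refine mul_le_mul_of_nonneg_right (le_of_eq ?_) hR
  ring

end Pool.Agent.H1.VT
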